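import Pool.Agent.Lib.MP_33b3f9_ag.M8.SH.MonoOut
import Pool.Agent.Lib.MP_33b3f9_ag.MG.FP.End
import Pool.Agent.Lib.MP_33b3f9_ag.MG.Cent
import Pool.Agent.Lib.MP_33b3f9_ag.MG.Ry.A

/-!
The monodromy statement, and the counting lemma.
-/

set_option autoImplicit false

namespace MG.SH

open Filter Topology Matrix M4 M4.FP M4.SH M8.FP M8.SH

theorem holF_rel {ι W : Type} [Fintype ι] [DecidableEq ι] [NormedAddCommGroup W] [NormedSpace ℂ W]
    (g : Matrix (ι ⊕ ι) (ι ⊕ ι) ℝ) (i j : ι) : HolF W fun τ : Matrix ι ι ℂ =>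
      (τ * g.toBlocks₁₁.map Complex.ofReal + g.toBlocks₂₁.map Complex.ofReal - jf g τ * τ) i j :=
  fun σ s _ hσ _ => by
    simp only [jf, Matrix.sub_apply, Matrix.add_apply, Matrix.mul_apply]
    exact ((DifferentiableOn.fun_sum fun k _ => (hσ i k).mul_const _).add_const _).sub
      (DifferentiableOn.fun_sum fun k _ =>
        ((DifferentiableOn.fun_sum fun l _ => (hσ i l).mul_const _).add_const _).mul (hσ k j))

variable [Dim] {a b : MZ} {e m n d : ℕ}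

theorem mono (hP : PEL e a b m n) (Φ : E3.Fr (Fin e) a b) (w : Mor e a b ℂ)
    (hw : ∀ s, M8.E3.cx (Φ.ep s) = w.ep s) (c : Ch d a b) (y : Matrix (Fin (d + 1)) Bits ℂ)
    (z : Fin d → ℂ) (hz : z ∈ c.U) (hE : EndX a b (c.f z)) (hg : GEN a b (cst (c.f z)))
    (hf : FinProj a b y) (he : EtProj c y z) : CL.MONOst Φ.ep c y z := by
  rintro g M ⟨hM, -, hs, hC⟩ k v P hd hv rfl hi hp hh hdm hc
  have hm : 0 < M := hM.pos
  have hm' : (0 : ℝ) < M := Nat.cast_pos.2 hm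
  have hH : ∀ᶠ s in 𝓝 (0 : Fin k → ℂ), v s ∈ c.U :=
    hv.continuousAt.eventually (c.op.mem_nhds hz)
  have hX : ∀ᶠ s in 𝓝 (0 : Fin k → ℂ), act (zr g) (c.f (v s)) ∈ FX a b :=
    hH.mono fun s h => hP.fx_act hm hs hC.1 hC.2 (c.mem _ h)
  have h0 := c.mem _ hz
  have hdet : IsOpen {σ : ι → ι → ℂ | (den (zr g) (Matrix.of σ)).det ≠ 0} := by
    refine isOpen_ne_fun (Continuous.matrix_det ?_) continuous_const
    exact continuous_const.sub (continuous_const.matrix_mul continuous_id)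
  have hA : AnalyticAt ℂ (fun (σ : ι → ι → ℂ) i j => act (zr g) (Matrix.of σ) i j)
      (c.f (v 0)) :=
    Pool.Agent.Lib.MP_940f24_an.analyticOnNhd_of_differentiableOn hdet
      (differentiableOn_act (zr g)) _ (den_det_ne_zero hs hm' h0.1)
  have hB : AnalyticAt ℂ (fun s (i j : ι) => c.f (v s) i j) 0 :=
    AnalyticAt.comp (g := fun (t : Fin d → ℂ) (i j : ι) => c.f t i j)
      (Pool.Agent.Lib.MP_940f24_an.analyticOnNhd_of_differentiableOn c.op c.hol _ hz) hv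
  have hV : AnalyticAt ℂ
      (fun (s : Fin k → ℂ) (i j : ι) => act (zr g) (c.f (v s)) i j) 0 :=
    AnalyticAt.comp (f := fun s (i j : ι) => c.f (v s) i j) hA hB
  obtain ⟨hT, hE'⟩ := he g M hm hs
  obtain ⟨G, hG, hF, hv'⟩ := monoU (has_red _) (Mo.hasLow _) y hf.1 hd hV
    (hX.mono fun s h => h.1) hX (fun e w h => by
      have hD : fderiv ℂ (fun s => Thy c y g (v s)) 0 =
          (fderiv ℂ (Thy c y g) (v 0)).comp (fderiv ℂ v 0) :=
        fderiv_comp (0 : Fin k → ℂ) hT.differentiableAt hv.differentiableAt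
      have h1 : e • Thy c y g (v 0) + fderiv ℂ (fun s => Thy c y g (v s)) 0 w = 0 := h
      rw [hD] at h1
      have h2 : ((e, fderiv ℂ v 0 w) : ℂ × (Fin d → ℂ)) = (0, 0) := hE' (by simpa using h1)
      exact ⟨congrArg Prod.fst h2, hi (by simpa using congrArg Prod.snd h2)⟩)
    hp hh hdm (fun μ φ hφ => hc.1 μ φ hφ)
  have h8 : ∀ γ ∈ G, Lv 8 γ.1 := fun γ hγ i j => by
    obtain ⟨β, hβ, -⟩ := hG hγ
    rw [hβ, add_sub_cancel_left]
    exact ⟨β i j, rfl⟩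
  have hfix : ∀ γ ∈ G, ∀ (x : MZ) (l : ℕ), 0 < l → Sim (zr x) l →
      (∀ τ ∈ FX a b, act (zr x) τ = τ) →
      act (zr x) (az γ (act (zr g) (c.f (v 0)))) = az γ (act (zr g) (c.f (v 0))) :=
    fun γ hγ x l hk hx h => Matrix.ext fun i j => sub_eq_zero.1
      (hv' γ hγ _ (holF_fix hx (Nat.cast_pos.2 hk) i j)
        (hX.mono fun s hs => sub_eq_zero.2 (congrFun (congrFun (h _ hs) i) j))).self_of_nhds
  have hcom : ∀ γ ∈ G, zr b * cst (az γ (act (zr g) (c.f (v 0)))) =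
      cst (az γ (act (zr g) (c.f (v 0)))) * zr b := fun γ hγ =>
    (Ry.comm_of_rel (inH_az γ hX.self_of_nhds.1) (sub_eq_zero.1 (Matrix.ext fun i j =>
      (hv' γ hγ _ (holF_rel (zr b) i j) (hX.mono fun s hs => congrFun (congrFun
        (sub_eq_zero.2 (Ry.rel_of_comm hs.1 hs.2.2.symm)) i) j)).self_of_nhds))).symm
  refine ⟨G, FP.irr_of_fix w Φ hw (hg.act h0.1 hm hs hC.1 hC.2) hF fun γ hγ =>
    cent hP hX.self_of_nhds (hE.act h0.1 hm hs hC.1 hC.2) (sim_of_mem (cm_mem ℝ γ)) (h8 γ hγ)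
      ⟨inH_az γ hX.self_of_nhds.1, hfix γ hγ a m hP.m0 hP.sim_a fun τ h => h.2.1,
        hcom γ hγ⟩,
    h8, fun γ hγ F hF => hv' γ hγ F (holF_of hF)⟩

end MG.SH

namespace MG.CL

open M4

variable [Dim] {a b : MZ} {e m n d : ℕ}

theorem cl' (hP : PEL e a b m n) (c : Ch d a b) (y : Matrix (Fin (d + 1)) Bits ℂ) (z : Fin d → ℂ)
    (hz : z ∈ c.U) (hy : FinProj a b y) (hf : FINst c y) (hE : EndX a b (c.f z))
    (hg : GEN a b (cst (c.f z))) (he : EtProj c y z) : CLst c y z := by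
  obtain ⟨w, -⟩ := hP.mor_real
  obtain ⟨Φ, hΦ⟩ := hP.exists_fr w
  refine cl hP Φ (FP.two (w.map Complex.ofRealHom) hP.pos) c y z hz hy hf
    (SH.mono hP Φ (w.map Complex.ofRealHom) (fun s => ?_) c y z hz hE hg hy he)
  rw [hΦ]
  refine (w.map_em Complex.ofRealHom _).trans (congrArg _ (funext fun t => ?_))
  by_cases h : t = s
  · subst h
    simp
  · simp [h]

end MG.CL
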